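import Mathlib
import Pool.Agent.V1184.FreudUnique
import Pool.Agent.V1184.FreudExist

/-! The sextic Freud string equation has exactly one positive solution, the sequence of recurrence
coefficients of the weight `exp(-x^6+τx^4+tx^2)`. -/

open Polynomial MeasureTheory

namespace Pool.Agent.Results.MP_d042fc_an.SexticFreudUnique

/-- The sextic Freud weight. -/
noncomputable def omega (τ t x : ℝ) : ℝ := Real.exp (-x ^ 6 + τ * x ^ 4 + t * x ^ 2)

/-- The moments of the weight. -/
noncomputable def moment (τ t : ℝ) (k : ℕ) : ℝ := ∫ x : ℝ, x ^ k * omega τ t x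

/-- The value `b_{n-2}`, with the convention `b_{-1} = 0` (used only for `n ≥ 1`). -/
def back (b : ℕ → ℝ) (n : ℕ) : ℝ := if n = 1 then 0 else b (n - 2)

/-- Positive solutions of equation (E). -/
structure IsPositiveSolution (τ t : ℝ) (b : ℕ → ℝ) : Prop where
  zero : b 0 = 0
  pos : ∀ n : ℕ, 1 ≤ n → 0 < b n
  eqn : ∀ n : ℕ, 1 ≤ n →
    6 * b n * (back b n * b (n - 1) + b (n - 1) ^ 2 + 2 * b (n - 1) * b n +
      b (n - 1) * b (n + 1) + b n ^ 2 + 2 * b n * b (n + 1) + b (n + 1) ^ 2 +
      b (n + 1) * b (n + 2)) - 4 * τ * b n * (b (n - 1) + b n + b (n + 1)) - 2 * t * b n = n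

/-- The monic polynomials with `P_0 = 1`, `P_1 = x`, `P_{n+2} = x P_{n+1} - b_{n+1} P_n`. -/
noncomputable def poly (b : ℕ → ℝ) : ℕ → ℝ[X]
  | 0 => 1
  | 1 => X
  | n + 2 => X * poly b (n + 1) - C (b (n + 1)) * poly b n

/-- `β` is the sequence of recurrence coefficients of the weight: `β_0 = 0` and the monic
polynomials generated by `β` are pairwise orthogonal for the weight. -/
def IsRecurrence (τ t : ℝ) (β : ℕ → ℝ) : Prop :=
  β 0 = 0 ∧ ∀ m n : ℕ, m ≠ n →
    ∫ x : ℝ, (poly β m).eval x * (poly β n).eval x * omega τ t x = 0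

open Pool.Agent.V1184.Freud in
lemma poly_eq (b : ℕ → ℝ) (n : ℕ) : poly b n = P b n := by
  induction n using Nat.strong_induction_on with
  | _ n ih =>
    match n with
    | 0 => rfl
    | 1 => rfl
    | n + 2 => rw [poly, P, ih (n + 1) (by omega), ih n (by omega)]

open Pool.Agent.V1184.Freud in
lemma string_of {τ t : ℝ} {b : ℕ → ℝ} (h : IsPositiveSolution τ t b) : IsString τ t b := by
  intro n hn
  have h1 := h.eqn n hn
  have h2 : back b n = b (n - 2) := by
    unfold back
    split_ifs with h3
    · subst h3; exact h.zero.symm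
    · rfl
  rw [h2] at h1
  exact h1

open Pool.Agent.V1184.Freud in
lemma of_string {τ t : ℝ} {b : ℕ → ℝ} (h0 : b 0 = 0) (hp : ∀ n, 1 ≤ n → 0 < b n)
    (h : IsString τ t b) : IsPositiveSolution τ t b := by
  refine ⟨h0, hp, ?_⟩
  intro n hn
  have h1 := h n hn
  have h2 : back b n = b (n - 2) := by
    unfold back
    split_ifs with h3
    · subst h3; exact h0.symm
    · rfl
  rw [h2]
  exact h1

open Pool.Agent.V1184.Freud in
lemma Lm_eq (τ t : ℝ) (p q : ℝ[X]) :
    Lm τ t (p * q) = (∫ x : ℝ, p.eval x * q.eval x * omega τ t x) / mu τ t 0 := by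
  rw [Lm_def]
  simp only [eval_mul]
  rfl

/-- **Theorem.** For all real `τ, t` (in particular for `t = -κτ²` with any real `κ`) equation (E)
has exactly one positive solution `β`; it is the (unique) sequence of recurrence coefficients of the
weight, and `β_1 = μ_2/μ_0`, `β_2 = μ_4/μ_2 - μ_2/μ_0`. -/
theorem result (τ t : ℝ) :
    ∃ β : ℕ → ℝ,
      (∀ b : ℕ → ℝ, IsPositiveSolution τ t b ↔ b = β) ∧
      (∀ b : ℕ → ℝ, IsRecurrence τ t b ↔ b = β) ∧
      β 1 = moment τ t 2 / moment τ t 0 ∧
      β 2 = moment τ t 4 / moment τ t 2 - moment τ t 2 / moment τ t 0 := by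
  open Pool.Agent.V1184.Freud in
  have hb0 : beta τ t 0 = 0 := rfl
  have hbp := Pool.Agent.V1184.Freud.beta_pos τ t
  have hbs := Pool.Agent.V1184.Freud.beta_string τ t
  refine ⟨Pool.Agent.V1184.Freud.beta τ t, ?_, ?_,
    Pool.Agent.V1184.Freud.unique_b1 hb0 hbp hbs, Pool.Agent.V1184.Freud.unique_b2 hb0 hbp hbs⟩
  · intro b
    constructor
    · intro h
      have hs := string_of h
      refine Pool.Agent.V1184.Freud.string_det h.zero hb0 h.pos hs hbs ?_ ?_
      · rw [Pool.Agent.V1184.Freud.unique_b1 h.zero h.pos hs,
          Pool.Agent.V1184.Freud.unique_b1 hb0 hbp hbs]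
      · rw [Pool.Agent.V1184.Freud.unique_b2 h.zero h.pos hs,
          Pool.Agent.V1184.Freud.unique_b2 hb0 hbp hbs]
    · intro h
      rw [h]
      exact of_string hb0 hbp hbs
  · intro b
    have hmu := (Pool.Agent.V1184.Freud.mu0_pos τ t).ne'
    have horth : ∀ m n : ℕ, m ≠ n → ∫ x : ℝ,
        (poly (Pool.Agent.V1184.Freud.beta τ t) m).eval x *
        (poly (Pool.Agent.V1184.Freud.beta τ t) n).eval x * omega τ t x = 0 := by
      have key : ∀ m n : ℕ, n < m → ∫ x : ℝ,
          (poly (Pool.Agent.V1184.Freud.beta τ t) m).eval x *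
          (poly (Pool.Agent.V1184.Freud.beta τ t) n).eval x * omega τ t x = 0 := by
        intro m n hmn
        have h1 := Pool.Agent.V1184.Freud.orth τ t m n hmn
        rw [← poly_eq, ← poly_eq, Lm_eq] at h1
        rcases div_eq_zero_iff.1 h1 with h | h
        · exact h
        · exact absurd h hmu
      intro m n hmn
      rcases lt_or_gt_of_ne hmn with h | h
      · rw [← key n m h]
        congr 1
        ext x; ring
      · exact key m n h
    constructor
    · rintro ⟨h0, h⟩
      -- orthogonality determines the coefficients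
      have main : ∀ n : ℕ, b n = Pool.Agent.V1184.Freud.beta τ t n ∧
          poly b n = poly (Pool.Agent.V1184.Freud.beta τ t) n := by
        intro n
        induction n using Nat.strong_induction_on with
        | _ n ih =>
          have hpoly : poly b n = poly (Pool.Agent.V1184.Freud.beta τ t) n := by
            match n with
            | 0 => rfl
            | 1 => rfl
            | n + 2 =>
              rw [poly, poly, (ih (n + 1) (by omega)).1, (ih (n + 1) (by omega)).2,
                (ih n (by omega)).2]
          refine ⟨?_, hpoly⟩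
          match n with
          | 0 => rw [h0, hb0]
          | n + 1 =>
            set β := Pool.Agent.V1184.Freud.beta τ t with hβ
            have g1 := h (n + 2) n (by omega)
            have g2 := horth (n + 2) n (by omega)
            have e1 : Pool.Agent.V1184.Freud.Lm τ t (poly b (n + 2) * poly b n) = 0 := by
              rw [Lm_eq, g1, zero_div]
            have e2 : Pool.Agent.V1184.Freud.Lm τ t (poly β (n + 2) * poly β n) = 0 := by
              rw [Lm_eq, g2, zero_div]
            rw [poly, hpoly, (ih n (by omega)).2] at e1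
            rw [poly] at e2
            have e3 : (X * poly β (n + 1) - C (b (n + 1)) * poly β n) * poly β n =
                (X * poly β (n + 1)) * poly β n - C (b (n + 1)) * (poly β n * poly β n) := by ring
            have e4 : (X * poly β (n + 1) - C (β (n + 1)) * poly β n) * poly β n =
                (X * poly β (n + 1)) * poly β n - C (β (n + 1)) * (poly β n * poly β n) := by ring
            rw [e3, map_sub, Pool.Agent.V1184.Freud.Lm_C_mul] at e1
            rw [e4, map_sub, Pool.Agent.V1184.Freud.Lm_C_mul] at e2
            have h4 : 0 < Pool.Agent.V1184.Freud.Lm τ t (poly β n * poly β n) := by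
              rw [poly_eq]
              exact Pool.Agent.V1184.Freud.Lm_sq_pos τ t _ (Pool.Agent.V1184.Freud.P_ne β n)
            have e5 : (b (n + 1) - β (n + 1)) *
                Pool.Agent.V1184.Freud.Lm τ t (poly β n * poly β n) = 0 := by
              linear_combination e2 - e1
            have := (mul_eq_zero.1 e5).resolve_right h4.ne'
            linarith
      funext n
      exact (main n).1
    · intro h
      rw [h]
      exact ⟨hb0, horth⟩

end Pool.Agent.Results.MP_d042fc_an.SexticFreudUnique
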